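import Mathlib
import Pool.Prelude.Def_F_863cd8e6

set_option autoImplicit false

open N7a27f154 Finset

namespace Pool.Agent.Helper652_CS

/-- Partial sums of `A`: `ps A j = A 0 + ... + A (j-1)`. -/
def ps (A : ℕ → ℕ) (j : ℕ) : ℕ := ∑ i ∈ Finset.range j, A i

lemma ps_succ (A : ℕ → ℕ) (j : ℕ) : ps A (j + 1) = ps A j + A j := by
  simp [ps, Finset.sum_range_succ]

lemma ps_add_Icc (A : ℕ → ℕ) {u v : ℕ} (h : u ≤ v) :
    ps A u + ∑ i ∈ Finset.Icc u v, A i = ps A (v + 1) := by
  induction v, h using Nat.le_induction with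
  | base => simp [ps_succ]
  | succ n hn ih =>
    rw [ps_succ A (n + 1), ← ih, ← Finset.insert_Icc_right_eq_Icc_add_one (by omega),
      Finset.sum_insert (by simp)]
    ring

/-- A strictly increasing sequence of positive integers in which no term is a sum of two or
more consecutive terms. -/
structure CSF (A : ℕ → ℕ) : Prop where
  mono : StrictMono A
  pos : ∀ i, 1 ≤ A i
  free : ∀ u v j, u < v → A j ≠ ∑ i ∈ Finset.Icc u v, A i

lemma csf_of_good {A : ℕ → ℕ} {n : ℕ} (hn : 1 ≤ n) (hA : IsGoodFor A n) : CSF A := by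
  obtain ⟨h0, hm, hl⟩ := hA
  have hpos : ∀ i, 1 ≤ A i := by
    intro i
    have := hm.monotone (Nat.zero_le i)
    omega
  refine ⟨hm, hpos, ?_⟩
  intro u v j huv heq
  have h1 : A u + A v ≤ ∑ i ∈ Finset.Icc u v, A i := by
    have : ∑ i ∈ ({u, v} : Finset ℕ), A i ≤ ∑ i ∈ Finset.Icc u v, A i := by
      apply Finset.sum_le_sum_of_subset
      intro i hi
      simp at hi
      rcases hi with rfl | rfl <;> simp <;> omega
    rwa [Finset.sum_pair (by omega)] at this
  have h2 : A v < A j := by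
    have := hpos u
    omega
  have h3 : v < j := hm.lt_iff_lt.mp h2
  obtain ⟨j', rfl⟩ : ∃ j', j = j' + 1 := ⟨j - 1, by omega⟩
  have h4 := (hl j').1.2 u v (by
    intro i hi
    simp at hi ⊢
    omega)
  exact h4 heq

lemma CSF.ps_ne {A : ℕ → ℕ} (hA : CSF A) {u v : ℕ} (h : u < v) (j : ℕ) :
    ps A (v + 1) ≠ ps A u + A j := by
  intro heq
  have := ps_add_Icc A h.le
  exact hA.free u v j h (by omega)

end Pool.Agent.Helper652_CS
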