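import Mathlib

set_option autoImplicit false

open Finset

namespace Pool.Agent.Helper652_CS

/-- One set, many translates: a large subfamily of pairwise large intersections. -/
lemma single (d r : ℕ) (hd : 1 ≤ d) :
    ∃ N c : ℕ, ∀ X : Finset ℕ, N ≤ #X → ∀ (W k : ℕ), (∀ x ∈ X, k * x ≤ W) →
      ∀ E : Finset ℕ, E ⊆ Finset.range W → W ≤ d * #E →
      ∃ X' ⊆ X, #X' = r ∧ ∀ x ∈ X', ∀ x' ∈ X', x < x' →
        W ≤ c * #{v ∈ E | ∃ w ∈ E, w + k * (x' - x) = v} := by
  classical
  refine ⟨4 * d * (r + 1), 2 * d * 2 ^ (4 * d * (r + 1)) , ?_⟩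
  intro X hX W k hk E hE hW
  set m := 4 * d * (r + 1) with hm
  obtain ⟨Y, hYX, hYc⟩ := Finset.exists_subset_card_eq hX
  -- incidence function
  set f : ℕ → Finset ℕ := fun v => {x ∈ Y | ∃ w ∈ E, w + k * x = v} with hf
  have hsum : ∑ v ∈ Finset.range (2 * W), #(f v) = m * #E := by
    have h1 : ∀ x ∈ Y, #{v ∈ Finset.range (2 * W) | ∃ w ∈ E, w + k * x = v} = #E := by
      intro x hx
      have : {v ∈ Finset.range (2 * W) | ∃ w ∈ E, w + k * x = v} = E.image (fun w => w + k * x) := by
        ext v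
        simp only [Finset.mem_filter, Finset.mem_range, Finset.mem_image]
        constructor
        · rintro ⟨_, h⟩; exact h
        · rintro ⟨w, hw, rfl⟩
          have h1 := Finset.mem_range.mp (hE hw)
          have h2 := hk x (hYX hx)
          exact ⟨by omega, w, hw, rfl⟩
      rw [this, Finset.card_image_of_injective]
      intro a b hab
      simpa using hab
    have h2 : ∑ v ∈ Finset.range (2 * W), #(f v)
        = ∑ x ∈ Y, #{v ∈ Finset.range (2 * W) | ∃ w ∈ E, w + k * x = v} := by
      simp only [hf, Finset.card_filter]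
      rw [Finset.sum_comm]
    rw [h2, Finset.sum_congr rfl h1, Finset.sum_const, hYc]
    simp
  -- many v with large f v
  set V := {v ∈ Finset.range (2 * W) | r ≤ #(f v)} with hV
  have hVcard : W ≤ (2 * d) * #V := by
    have h1 : ∑ v ∈ Finset.range (2 * W), #(f v) ≤ m * #V + r * (2 * W) := by
      calc ∑ v ∈ Finset.range (2 * W), #(f v)
          ≤ ∑ v ∈ Finset.range (2 * W), ((if r ≤ #(f v) then m else 0) + r) := by
            apply Finset.sum_le_sum
            intro v _
            split_ifs with h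
            · have : #(f v) ≤ #Y := Finset.card_le_card (Finset.filter_subset _ _)
              omega
            · omega
        _ = m * #V + r * (2 * W) := by
            rw [Finset.sum_add_distrib, Finset.sum_const, ← Finset.sum_filter, Finset.sum_const]
            simp [hV]
            ring
    rw [hsum] at h1
    have h2 : m * #E = 4 * (r + 1) * (d * #E) := by rw [hm]; ring
    have h3 : 4 * (r + 1) * W ≤ m * #E := by
      rw [h2]; exact Nat.mul_le_mul_left _ hW
    have h4 : 2 * (r + 1) * W ≤ m * #V := by nlinarith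
    have h5 : m * #V = 2 * (r + 1) * ((2 * d) * #V) := by rw [hm]; ring
    rw [h5] at h4
    exact Nat.le_of_mul_le_mul_left h4 (by omega)
  -- pigeonhole on the subset
  by_cases hW0 : W = 0
  · obtain ⟨X', hX', hc⟩ := Finset.exists_subset_card_eq (s := X) (n := r) (by
      have : r ≤ m := by rw [hm]; nlinarith
      omega)
    exact ⟨X', hX', hc, by intro x _ x' _ _; omega⟩
  have hpig2 : ∃ X' ∈ Y.powerset, #V ≤ 2 ^ m * #{v ∈ V | f v = X'} := by
    by_contra hcon
    push Not at hcon
    have h1 : #V = ∑ X' ∈ Y.powerset, #{v ∈ V | f v = X'} :=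
      Finset.card_eq_sum_card_fiberwise (by
        intro v _
        have : f v ∈ Y.powerset := by simp [hf]
        exact Finset.mem_coe.mpr this)
    have h2 : 2 ^ m * #V = ∑ X' ∈ Y.powerset, 2 ^ m * #{v ∈ V | f v = X'} := by
      rw [← Finset.mul_sum, ← h1]
    have h3 : ∑ X' ∈ Y.powerset, 2 ^ m * #{v ∈ V | f v = X'} < ∑ X' ∈ Y.powerset, #V := by
      apply Finset.sum_lt_sum_of_nonempty ⟨∅, by simp⟩
      exact hcon
    rw [Finset.sum_const, Finset.card_powerset, hYc, ← h2] at h3
    simp at h3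
  obtain ⟨X₁, hX₁, hcard⟩ := hpig2
  have hne : ({v ∈ V | f v = X₁}).Nonempty := by
    rw [← Finset.card_pos]
    by_contra h
    have h0 : #{v ∈ V | f v = X₁} = 0 := by omega
    rw [h0] at hcard
    have : #V = 0 := by omega
    rw [this] at hVcard
    omega
  have hr : r ≤ #X₁ := by
    obtain ⟨v, hv⟩ := hne
    simp only [hV, Finset.mem_filter] at hv
    rw [← hv.2]
    exact hv.1.2
  obtain ⟨X', hX', hc⟩ := Finset.exists_subset_card_eq hr
  refine ⟨X', hX'.trans ((Finset.mem_powerset.mp hX₁).trans hYX), hc, ?_⟩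
  intro x hx x' hx' hlt
  have hkey : #{v ∈ V | f v = X₁} ≤ #{v ∈ E | ∃ w ∈ E, w + k * (x' - x) = v} := by
    apply Finset.card_le_card_of_injOn (fun v => v - k * x)
    · intro v hv
      simp only [Finset.coe_filter, Set.mem_ofPred_eq] at hv ⊢
      have h1 : x ∈ f v := by rw [hv.2]; exact hX' hx
      have h2 : x' ∈ f v := by rw [hv.2]; exact hX' hx'
      simp only [hf, Finset.mem_filter] at h1 h2
      obtain ⟨_, w, hw, hw2⟩ := h1
      obtain ⟨_, w', hw', hw2'⟩ := h2
      have h3 : v - k * x = w := by omega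
      rw [h3]
      refine ⟨hw, w', hw', ?_⟩
      have h4 : k * x' = k * x + k * (x' - x) := by
        rw [← Nat.mul_add]; congr 1; omega
      omega
    · intro v hv v' hv' h
      simp only [Finset.coe_filter, Set.mem_ofPred_eq] at hv hv'
      have h1 : x ∈ f v := by rw [hv.2]; exact hX' hx
      have h2 : x ∈ f v' := by rw [hv'.2]; exact hX' hx
      simp only [hf, Finset.mem_filter] at h1 h2
      obtain ⟨_, w, hw, hw2⟩ := h1
      obtain ⟨_, w', hw', hw2'⟩ := h2
      simp only at h
      omega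
  calc W ≤ (2 * d) * #V := hVcard
    _ ≤ (2 * d) * (2 ^ m * #{v ∈ V | f v = X₁}) := Nat.mul_le_mul_left _ hcard
    _ = 2 * d * 2 ^ m * #{v ∈ V | f v = X₁} := by ring
    _ ≤ 2 * d * 2 ^ m * #{v ∈ E | ∃ w ∈ E, w + k * (x' - x) = v} := Nat.mul_le_mul_left _ hkey

/-- Simultaneous version over a finite index set. -/
lemma simul {ι : Type} (d : ℕ) (hd : 1 ≤ d) (s : Finset ι) : ∀ r : ℕ,
    ∃ N c : ℕ, ∀ X : Finset ℕ, N ≤ #X → ∀ (W : ℕ) (k : ι → ℕ),
      (∀ i ∈ s, ∀ x ∈ X, k i * x ≤ W) →
      ∀ E : ι → Finset ℕ, (∀ i ∈ s, E i ⊆ Finset.range W) → (∀ i ∈ s, W ≤ d * #(E i)) →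
      ∃ X' ⊆ X, #X' = r ∧ ∀ i ∈ s, ∀ x ∈ X', ∀ x' ∈ X', x < x' →
        W ≤ c * #{v ∈ E i | ∃ w ∈ E i, w + k i * (x' - x) = v} := by
  classical
  induction s using Finset.induction_on with
  | empty =>
    intro r
    refine ⟨r, 0, ?_⟩
    intro X hX W k _ E _ _
    obtain ⟨X', hX', hc⟩ := Finset.exists_subset_card_eq hX
    exact ⟨X', hX', hc, by simp⟩
  | insert a s ha ih =>
    intro r
    obtain ⟨N₁, c₁, h₁⟩ := single d r hd
    obtain ⟨N₂, c₂, h₂⟩ := ih N₁
    refine ⟨N₂, max c₁ c₂, ?_⟩
    intro X hX W k hk E hE hW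
    obtain ⟨X₁, hX₁, hc₁, hp₁⟩ := h₂ X hX W k (fun i hi => hk i (Finset.mem_insert_of_mem hi)) E
      (fun i hi => hE i (Finset.mem_insert_of_mem hi))
      (fun i hi => hW i (Finset.mem_insert_of_mem hi))
    obtain ⟨X₂, hX₂, hc₂, hp₂⟩ := h₁ X₁ hc₁.ge W (k a)
      (fun x hx => hk a (Finset.mem_insert_self _ _) x (hX₁ hx)) (E a)
      (hE a (Finset.mem_insert_self _ _)) (hW a (Finset.mem_insert_self _ _))
    refine ⟨X₂, hX₂.trans hX₁, hc₂, ?_⟩
    intro i hi x hx x' hx' hlt
    rcases Finset.mem_insert.mp hi with rfl | hi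
    · exact (hp₂ x hx x' hx' hlt).trans (Nat.mul_le_mul_right _ (le_max_left _ _))
    · exact (hp₁ i hi x (hX₂ hx) x' (hX₂ hx') hlt).trans (Nat.mul_le_mul_right _ (le_max_right _ _))

/-- Multi-scale chain lemma. -/
lemma chain (d₀ : ℕ) (hd₀ : 1 ≤ d₀) (m : ℕ) : ∀ (ι : Type) [Fintype ι] (d b : ℕ), 1 ≤ d →
    ∃ B W₀ : ℕ, ∀ W, W₀ ≤ W → ∀ D : ℕ → Finset ℕ, (∀ z, D z ⊆ Finset.range W) →
      (∀ z, W ≤ d₀ * #(D z)) → ∀ z : ℕ, ∀ (k : ι → ℕ) (E : ι → Finset ℕ),
      (∀ i, k i ≤ b) → (∀ i, E i ⊆ Finset.range W) → (∀ i, W ≤ d * #(E i)) →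
      ∃ κ : ℕ → ℕ, κ 0 = 1 ∧ (∀ i ≤ m, 1 ≤ κ i ∧ κ i ≤ B) ∧
        (∀ i j, i < j → j ≤ m → ∃ q, 2 ≤ q ∧ κ j = κ i * q ∧
          ∃ v ∈ D (κ i * z), ∃ w ∈ D (κ i * z), w + (q - 1) = v) ∧
        (∀ i, ∀ r, 1 ≤ r → r ≤ m → ∃ v ∈ E i, ∃ w ∈ E i, w + k i * (κ r - 1) = v) := by
  classical
  induction m with
  | zero =>
    intro ι _ d b _
    refine ⟨1, 0, ?_⟩
    intro W _ D _ _ z k E _ _ _
    refine ⟨fun _ => 1, rfl, by simp, ?_, ?_⟩
    · intro i j h1 h2; omega
    · intro i r h1 h2; omega
  | succ m ih =>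
    intro ι _ d b hd
    -- items indexed by Option ι
    obtain ⟨N, c, hNc⟩ := simul (ι := Option ι) (max d d₀) (by omega) Finset.univ 2
    obtain ⟨B, W₁, hB⟩ := ih (Option ι) (c + 1) (max b 1 * (1 + N)) (by omega)
    refine ⟨(1 + N) * B + 1, max (max W₁ (max b 1 * N)) 1, ?_⟩
    intro W hW D hD hDc z k E hk hE hEc
    set k' : Option ι → ℕ := fun o => o.elim 1 k with hk'
    set E' : Option ι → Finset ℕ := fun o => o.elim (D z) E with hE'
    have hWpos : 1 ≤ W := (le_max_right _ _).trans hW
    obtain ⟨X', hX', hc, hp⟩ := hNc (Finset.range N) (by simp) W k'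
      (by
        intro i _ x hx
        have hx' : x ≤ N := (Finset.mem_range.mp hx).le
        have h1 : k' i ≤ max b 1 := by
          cases i with
          | none => simp [hk']
          | some i => exact (hk i).trans (le_max_left _ _)
        calc k' i * x ≤ max b 1 * N := Nat.mul_le_mul h1 hx'
          _ ≤ W := ((le_max_right _ _).trans (le_max_left _ _)).trans hW)
      E'
      (by
        intro i _
        cases i with
        | none => exact hD z
        | some i => exact hE i)
      (by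
        intro i _
        cases i with
        | none => exact (hDc z).trans (Nat.mul_le_mul_right _ (le_max_right _ _))
        | some i => exact (hEc i).trans (Nat.mul_le_mul_right _ (le_max_left _ _)))
    obtain ⟨x, hx, x', hx', hlt⟩ : ∃ x ∈ X', ∃ x' ∈ X', x < x' := by
      rw [Finset.card_eq_two] at hc
      obtain ⟨a, b', hab, rfl⟩ := hc
      rcases lt_or_gt_of_ne hab with h | h
      · exact ⟨a, by simp, b', by simp, h⟩
      · exact ⟨b', by simp, a, by simp, h⟩
    set t := x' - x with ht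
    have ht1 : 1 ≤ t := by omega
    have htN : t ≤ N := by
      have := Finset.mem_range.mp (hX' hx')
      omega
    have hp' : ∀ i, W ≤ c * #{v ∈ E' i | ∃ w ∈ E' i, w + k' i * t = v} :=
      fun i => hp i (Finset.mem_univ _) x hx x' hx' hlt
    set F : Option ι → Finset ℕ := fun i => {v ∈ E' i | ∃ w ∈ E' i, w + k' i * t = v} with hF
    obtain ⟨κ', hκ0, hκB, hκp, hκE⟩ := hB W (((le_max_left _ _).trans (le_max_left _ _)).trans hW)
      D hD hDc ((1 + t) * z) (fun i => k' i * (1 + t)) F
      (by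
        intro i
        have h1 : k' i ≤ max b 1 := by
          cases i with
          | none => simp [hk']
          | some i => exact (hk i).trans (le_max_left _ _)
        exact Nat.mul_le_mul h1 (by omega))
      (by
        intro i
        refine (Finset.filter_subset _ _).trans ?_
        cases i with
        | none => exact hD z
        | some i => exact hE i)
      (by
        intro i
        exact (hp' i).trans (Nat.mul_le_mul_right _ (by omega)))
    -- key transfer
    have hkey : ∀ i : Option ι, ∀ r ≤ m, ∃ v ∈ E' i, ∃ w ∈ E' i,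
        w + k' i * ((1 + t) * κ' r - 1) = v := by
      intro i r hr
      have hκr := hκB r hr
      have hid : (1 + t) * κ' r - 1 = t + (1 + t) * (κ' r - 1) := by
        obtain ⟨y, hy⟩ : ∃ y, κ' r = y + 1 := ⟨κ' r - 1, by omega⟩
        rw [hy]
        simp
        have : (1 + t) * (y + 1) = (1 + t) * y + (1 + t) := by ring
        omega
      rcases Nat.eq_zero_or_pos r with h0 | hpos
      · subst h0
        have hne : (F i).Nonempty := by
          rw [← Finset.card_pos]
          by_contra h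
          have h0 : #(F i) = 0 := by omega
          have := hp' i
          simp only [hF] at h0
          rw [h0] at this
          omega
        obtain ⟨v, hv⟩ := hne
        simp only [hF, Finset.mem_filter] at hv
        obtain ⟨hv1, w, hw, hwv⟩ := hv
        refine ⟨v, hv1, w, hw, ?_⟩
        rw [hκ0]
        simpa using hwv
      · obtain ⟨v, hv, w, hw, hwv⟩ := hκE i r hpos hr
        simp only [hF, Finset.mem_filter] at hv hw
        obtain ⟨hw1, w', hw', hww⟩ := hw
        refine ⟨v, hv.1, w', hw', ?_⟩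
        rw [hid, Nat.mul_add, ← Nat.add_assoc, hww, ← Nat.mul_assoc]
        exact hwv
    refine ⟨fun n => if n = 0 then 1 else (1 + t) * κ' (n - 1), by simp, ?_, ?_, ?_⟩
    · intro i hi
      by_cases h0 : i = 0
      · simp [h0]
      · simp only [h0, if_false]
        have := hκB (i - 1) (by omega)
        constructor
        · nlinarith
        · have h1 : (1 + t) * κ' (i - 1) ≤ (1 + N) * B := Nat.mul_le_mul (by omega) this.2
          omega
    · intro i j hij hj
      have hj0 : j ≠ 0 := by omega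
      by_cases h0 : i = 0
      · subst h0
        simp only [if_true, hj0, if_false]
        refine ⟨(1 + t) * κ' (j - 1), ?_, by simp, ?_⟩
        · have := hκB (j - 1) (by omega)
          nlinarith
        · have := hkey none (j - 1) (by omega)
          simp only [hE', hk', Option.elim] at this
          simpa using this
      · simp only [h0, if_false, hj0]
        obtain ⟨q, hq2, hq, hv⟩ := hκp (i - 1) (j - 1) (by omega) (by omega)
        refine ⟨q, hq2, by rw [hq]; ring, ?_⟩
        have : (1 + t) * κ' (i - 1) * z = κ' (i - 1) * ((1 + t) * z) := by ring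
        rw [this]
        exact hv
    · intro i r h1 hr
      have hr0 : r ≠ 0 := by omega
      simp only [hr0, if_false]
      have := hkey (some i) (r - 1) (by omega)
      simpa [hE', hk'] using this

end Pool.Agent.Helper652_CS
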