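import Mathlib
import Pool.Agent.Helper652_CS.Basic
import Pool.Agent.Helper652_CS.Core

set_option autoImplicit false

open N7a27f154 Finset Topology

namespace Pool.Agent.Helper652_CS

/-- In a compact group there is a finite colouring whose colour classes have small differences. -/
lemma exists_col {K : Type*} [AddCommGroup K] [TopologicalSpace K] [IsTopologicalAddGroup K]
    [CompactSpace K] {U : Set K} (hU : U ∈ 𝓝 (0 : K)) :
    ∃ (N : ℕ) (col : K → Fin N), ∀ a b, col a = col b → a - b ∈ U := by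
  classical
  obtain ⟨V, hV, hVV⟩ := exists_nhds_half_neg hU
  obtain ⟨t, ht⟩ := compact_covered_by_add_left_translates (isCompact_univ (X := K)) (V := V)
    ⟨0, mem_interior_iff_mem_nhds.mpr hV⟩
  have h1 : ∀ a : K, ∃ g ∈ t, g + a ∈ V := by
    intro a
    have := ht (Set.mem_univ a)
    simp only [Set.mem_iUnion, Set.mem_preimage] at this
    obtain ⟨g, hg, h⟩ := this
    exact ⟨g, hg, h⟩
  choose g hg hgV using h1
  refine ⟨#t, fun a => t.equivFin ⟨g a, hg a⟩, ?_⟩
  intro a b hab
  have h2 : g a = g b := by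
    have := t.equivFin.injective hab
    simpa using this
  have h3 := hVV _ (hgV a) _ (hgV b)
  rw [h2] at h3
  simpa using h3

/-- The window `[y, y+W)` is good if the non-terms in it are `U`-dense in the image of `χ`. -/
def GoodW {K : Type*} [AddCommGroup K] (A : ℕ → ℕ) (χ : ℤ →+ K) (U : Set K) (W y : ℕ) : Prop :=
  ∀ m : ℤ, ∃ n : ℕ, y ≤ n ∧ n < y + W ∧ n ∉ Set.range A ∧ χ n - χ m ∈ U

theorem exists_good {A : ℕ → ℕ} (hA : CSF A) {K : Type*} [AddCommGroup K] [TopologicalSpace K]
    [IsTopologicalAddGroup K] [CompactSpace K] (χ : ℤ →+ K) {U : Set K} (hU : U ∈ 𝓝 (0 : K)) :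
    ∃ W B : ℕ, ∀ y : ℕ, ∃ κ, 1 ≤ κ ∧ κ ≤ B ∧ GoodW A χ U W (κ * y) := by
  classical
  -- small neighbourhood
  obtain ⟨U₁, hU₁, hsum⟩ : ∃ U₁ ∈ 𝓝 (0 : K), ∀ a ∈ U₁, ∀ b ∈ U₁, ∀ c ∈ U₁, a + b - c ∈ U := by
    obtain ⟨V, hV, hVV⟩ := exists_nhds_half_neg hU
    obtain ⟨V', hV', hVV'⟩ := exists_nhds_zero_half hV
    refine ⟨V ∩ V', Filter.inter_mem hV hV', ?_⟩
    intro a ha b hb c hc
    exact hVV _ (hVV' _ ha.2 _ hb.2) _ hc.1
  obtain ⟨N, col, hcol⟩ := exists_col hU₁
  have hNpos : 1 ≤ N := by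
    have := (col 0).2
    omega
  -- representatives
  have hrep : ∀ c : Fin N, ∃ f : ℤ, (∃ m : ℤ, col (χ m) = c) → col (χ f) = c := by
    intro c
    by_cases h : ∃ m : ℤ, col (χ m) = c
    · obtain ⟨m, hm⟩ := h
      exact ⟨m, fun _ => hm⟩
    · exact ⟨0, fun h' => absurd h' h⟩
  choose rep hrep using hrep
  have hrep' : ∀ m : ℤ, χ m - χ (rep (col (χ m))) ∈ U₁ := by
    intro m
    exact hcol _ _ (hrep _ ⟨m, rfl⟩).symm
  set C := Finset.univ.sup (fun c => (rep c).natAbs) with hC
  have hCle : ∀ c, (rep c).natAbs ≤ C := fun c => Finset.le_sup (f := fun c => (rep c).natAbs) (Finset.mem_univ c)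
  set L := 4 * C + 1 with hL
  have hsynd : ∀ (c : Fin N) (y : ℕ), ∃ n : ℕ, y ≤ n ∧ n < y + L ∧ χ n - χ (rep c) ∈ U₁ := by
    intro c y
    set m : ℤ := y + 2 * C with hm
    set c' := col (χ m) with hc'
    have h1 := hrep' m
    have h2 := hCle c
    have h3 := hCle c'
    obtain ⟨n, hn⟩ : ∃ n : ℕ, (n : ℤ) = m - rep c' + rep c := by
      refine ⟨(m - rep c' + rep c).toNat, ?_⟩
      omega
    refine ⟨n, by omega, by omega, ?_⟩
    rw [hn]
    simp only [map_add, map_sub, add_sub_cancel_right]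
    rw [← map_sub] at h1 ⊢
    exact h1
  -- parameters
  obtain ⟨B, W₀, hchain⟩ := chain (L * N) (by nlinarith) N (Fin 0) 1 1 le_rfl
  set h := W₀ with hh
  set W₁ := L * N * h with hW₁
  have hW₁' : W₀ ≤ W₁ := by
    have : 1 ≤ L * N := by nlinarith
    nlinarith
  set W := (B + 1) * W₁ with hW
  refine ⟨W, B, ?_⟩
  -- bad windows
  have hbad : ∀ y', ∃ c : Fin N, ¬ GoodW A χ U W y' → ∀ n : ℕ, y' ≤ n → n < y' + W →
      (∃ a ∈ U₁, ∃ b ∈ U₁, χ n - χ (rep c) = a + b) → n ∈ Set.range A := by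
    intro y'
    by_cases hg : GoodW A χ U W y'
    · exact ⟨col 0, fun h => absurd hg h⟩
    · unfold GoodW at hg
      push Not at hg
      obtain ⟨m, hm⟩ := hg
      refine ⟨col (χ m), fun _ => ?_⟩
      intro n h1 h2 h3
      obtain ⟨a, ha, b, hb, hab⟩ := h3
      by_contra hn
      refine hm n h1 h2 hn ?_
      have h4 := hsum a ha b hb _ (hrep' m)
      have h5 : a + b - (χ m - χ (rep (col (χ m)))) = χ n - χ m := by
        rw [← hab]; abel
      rwa [h5] at h4
  choose cc hcc using hbad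
  -- index sets
  have hD : ∀ y', ∃ D ⊆ Finset.range W₁, W₁ ≤ L * N * #D ∧ (¬ GoodW A χ U W y' →
      ∃ j₀, ∀ v ∈ D, ∀ w ∈ D, y' ≤ A (j₀ + v) ∧ A (j₀ + v) < y' + W₁ ∧
        χ (A (j₀ + v)) - χ (rep (cc y')) ∈ U₁ ∧ χ (ps A (j₀ + v)) - χ (ps A (j₀ + w)) ∈ U₁) := by
    intro y'
    by_cases hg : GoodW A χ U W y'
    · refine ⟨Finset.range W₁, subset_rfl, ?_, fun h => absurd hg h⟩
      rw [Finset.card_range]
      exact Nat.le_mul_of_pos_left _ (Nat.mul_pos (by omega) hNpos)
    · have hb := hcc y' hg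
      -- pick one element in each block
      have hblk : ∀ l : ℕ, ∃ j : ℕ, l < N * h → y' + l * L ≤ A j ∧ A j < y' + l * L + L ∧
          χ (A j) - χ (rep (cc y')) ∈ U₁ := by
        intro l
        by_cases hl : l < N * h
        · obtain ⟨n, h1, h2, h3⟩ := hsynd (cc y') (y' + l * L)
          have h4 : (l + 1) * L ≤ W₁ := by
            rw [hW₁]
            calc (l + 1) * L ≤ (N * h) * L := Nat.mul_le_mul_right _ hl
              _ = L * N * h := by ring
          have h4' : (l + 1) * L = l * L + L := by ring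
          have h5 : W₁ ≤ W := by rw [hW]; nlinarith
          have h6 : n ∈ Set.range A := by
            refine hb n (by omega) (by omega) ⟨_, h3, 0, mem_of_mem_nhds hU₁, by simp⟩
          obtain ⟨j, rfl⟩ := h6
          exact ⟨j, fun _ => ⟨h1, h2, h3⟩⟩
        · exact ⟨0, fun h => absurd h hl⟩
      choose J hJ using hblk
      have hJlt : ∀ l l', l < l' → l' < N * h → J l < J l' := by
        intro l l' hll hl'
        have h1 := hJ l (by omega)
        have h2 := hJ l' hl'
        apply hA.mono.lt_iff_lt.mp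
        have : (l + 1) * L ≤ l' * L := Nat.mul_le_mul_right _ hll
        have h4' : (l + 1) * L = l * L + L := by ring
        omega
      have hJle : ∀ l, l < N * h → J 0 ≤ J l := by
        intro l hl
        rcases Nat.eq_zero_or_pos l with h0 | hpos
        · rw [h0]
        · exact (hJlt 0 l hpos hl).le
      -- pigeonhole on the colour of the partial sums
      obtain ⟨c, -, hc⟩ : ∃ c ∈ (Finset.univ : Finset (Fin N)),
          h ≤ #{l ∈ Finset.range (N * h) | col (χ (ps A (J l))) = c} := by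
        apply Finset.exists_le_card_fiber_of_mul_le_card_of_maps_to
        · intro l _; simp
        · exact ⟨col 0, by simp⟩
        · simp
      set Λ := {l ∈ Finset.range (N * h) | col (χ (ps A (J l))) = c} with hΛ
      refine ⟨Λ.image (fun l => J l - J 0), ?_, ?_, ?_⟩
      · intro i hi
        simp only [hΛ, Finset.mem_image, Finset.mem_filter, Finset.mem_range] at hi ⊢
        obtain ⟨l, ⟨hl, _⟩, rfl⟩ := hi
        have h1 := hJ l hl
        have h2 := hJ 0 (by omega)
        have h3 := hJle l hl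
        have h4 : A (J 0) + (J l - J 0) ≤ A (J l) := by
          have := hA.mono.add_le_nat (J l - J 0) (J 0)
          have h3' : J l - J 0 + J 0 = J l := Nat.sub_add_cancel h3
          rw [h3'] at this
          omega
        have h6 : (l + 1) * L ≤ W₁ := by
            rw [hW₁]
            calc (l + 1) * L ≤ (N * h) * L := Nat.mul_le_mul_right _ hl
              _ = L * N * h := by ring
        have h4' : (l + 1) * L = l * L + L := by ring
        omega
      · rw [Finset.card_image_of_injOn]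
        · rw [hW₁]
          exact Nat.mul_le_mul_left _ hc
        · intro l hl l' hl' heq
          simp only [hΛ, Finset.coe_filter, Finset.mem_range, Set.mem_ofPred_eq] at hl hl'
          simp only at heq
          have h1 := hJle l hl.1
          have h2 := hJle l' hl'.1
          rcases lt_trichotomy l l' with h | h | h
          · have := hJlt l l' h hl'.1; omega
          · exact h
          · have := hJlt l' l h hl.1; omega
      · intro _
        refine ⟨J 0, ?_⟩
        intro v hv w hw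
        simp only [hΛ, Finset.mem_image, Finset.mem_filter, Finset.mem_range] at hv hw
        obtain ⟨l, ⟨hl, hlc⟩, rfl⟩ := hv
        obtain ⟨l', ⟨hl', hlc'⟩, rfl⟩ := hw
        have h1 := hJ l hl
        have h3 := hJle l hl
        have h3' := hJle l' hl'
        have h6 : (l + 1) * L ≤ W₁ := by
            rw [hW₁]
            calc (l + 1) * L ≤ (N * h) * L := Nat.mul_le_mul_right _ hl
              _ = L * N * h := by ring
        have h4' : (l + 1) * L = l * L + L := by ring
        rw [Nat.add_sub_cancel' h3, Nat.add_sub_cancel' h3']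
        exact ⟨by omega, by omega, h1.2.2, hcol _ _ (by rw [hlc, hlc'])⟩
  choose D hDsub hDcard hDprop using hD
  intro y
  obtain ⟨κ, hκ0, hκB, hκp, -⟩ := hchain W₁ hW₁' D hDsub hDcard y (fun i => i.elim0) (fun i => i.elim0)
    (fun i => i.elim0) (fun i => i.elim0) (fun i => i.elim0)
  by_contra hcon
  push Not at hcon
  have hallbad : ∀ i ≤ N, ¬ GoodW A χ U W (κ i * y) := fun i hi => hcon (κ i) (hκB i hi).1 (hκB i hi).2
  -- pigeonhole on colours
  obtain ⟨i, j, hij, hjN, hcij⟩ : ∃ i j, i < j ∧ j ≤ N ∧ cc (κ i * y) = cc (κ j * y) := by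
    have hnot : ¬ Function.Injective (fun i : Fin (N + 1) => cc (κ i * y)) := by
      intro hinj
      have := Fintype.card_le_of_injective _ hinj
      simp at this
    rw [Function.Injective] at hnot
    push Not at hnot
    obtain ⟨a, b, hab, hne⟩ := hnot
    rcases lt_or_gt_of_ne hne with hlt | hlt
    · exact ⟨a, b, hlt, by omega, hab⟩
    · exact ⟨b, a, hlt, by omega, hab.symm⟩
  obtain ⟨q, hq2, hq, v, hv, w, hw, hvw⟩ := hκp i j hij hjN
  have hbi := hallbad i (by omega)
  have hbj := hallbad j hjN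
  obtain ⟨j₀, hj₀⟩ := hDprop (κ i * y) hbi
  obtain ⟨hv1, hv2, hv3, hv4⟩ := hj₀ v hv w hw
  obtain ⟨hw1, hw2, hw3, hw4⟩ := hj₀ w hw v hv
  have hlt : j₀ + w < j₀ + v := by omega
  have hps := ps_add_Icc A hlt.le
  set t := ∑ i ∈ Finset.Icc (j₀ + w) (j₀ + v), A i with ht
  have hcardI : #(Finset.Icc (j₀ + w) (j₀ + v)) = q := by
    rw [Nat.card_Icc]; omega
  have htlow : κ j * y ≤ t := by
    have : #(Finset.Icc (j₀ + w) (j₀ + v)) • (κ i * y) ≤ t := by
      apply Finset.card_nsmul_le_sum
      intro x hx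
      have hx' := (Finset.mem_Icc.mp hx).1
      have := hA.mono.monotone hx'
      omega
    rw [hcardI, smul_eq_mul] at this
    calc κ j * y = q * (κ i * y) := by rw [hq]; ring
      _ ≤ t := this
  have hthigh : t < κ j * y + W := by
    have h1 : t ≤ #(Finset.Icc (j₀ + w) (j₀ + v)) • (κ i * y + W₁) := by
      apply Finset.sum_le_card_nsmul
      intro x hx
      have hx' := (Finset.mem_Icc.mp hx).2
      have := hA.mono.monotone hx'
      omega
    rw [hcardI, smul_eq_mul] at h1
    have h2 : q * (κ i * y + W₁) = κ j * y + q * W₁ := by rw [hq]; ring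
    have h3 : q ≤ B := by
      have h4 := (hκB j hjN).2
      have h5 := (hκB i (by omega)).1
      rw [hq] at h4
      nlinarith
    have h4 : q * W₁ < W := by
      rw [hW]
      have : 0 < W₁ := by
        have := (hκB 0 (by omega))
        by_contra h0
        have h0' : W₁ = 0 := by omega
        rw [h0'] at hv2
        omega
      calc q * W₁ ≤ B * W₁ := Nat.mul_le_mul_right _ h3
        _ < (B + 1) * W₁ := Nat.mul_lt_mul_of_pos_right (by omega) this
    omega
  have htne : t ∉ Set.range A := by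
    rintro ⟨x, hx⟩
    exact hA.free _ _ x hlt (by rw [hx])
  apply htne
  apply hcc (κ j * y) hbj t htlow hthigh
  refine ⟨_, hv4, _, hv3, ?_⟩
  rw [← hcij]
  have h1 : (t : ℤ) = (ps A (j₀ + v) : ℤ) - ps A (j₀ + w) + A (j₀ + v) := by
    have h2 := ps_succ A (j₀ + v)
    have h3 : ps A (j₀ + w) + t = ps A (j₀ + v) + A (j₀ + v) := by omega
    have h4 : (ps A (j₀ + w) : ℤ) + t = ps A (j₀ + v) + A (j₀ + v) := by exact_mod_cast h3
    linarith
  rw [h1]
  simp only [map_add, map_sub]
  abel

/-- Counting: the good windows have positive lower density. -/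
theorem good_density (P : ℕ → Prop) (B : ℕ) (h : ∀ y : ℕ, ∃ κ, 1 ≤ κ ∧ κ ≤ B ∧ P (κ * y)) :
    ∃ c : ℝ, 0 < c ∧ ∀ᶠ x : ℕ in Filter.atTop,
      c * x ≤ Set.ncard {y : ℕ | 1 ≤ y ∧ y ≤ x ∧ P y} := by
  classical
  choose κ hκ1 hκB hκP using h
  have hB : 1 ≤ B := (hκ1 0).trans (hκB 0)
  refine ⟨1 / (2 * B ^ 2), by positivity, ?_⟩
  filter_upwards [Filter.eventually_ge_atTop (2 * B)] with x hx
  have hset : {y : ℕ | 1 ≤ y ∧ y ≤ x ∧ P y} = ↑({y ∈ Finset.Icc 1 x | P y} : Finset ℕ) := by
    ext y; simp [and_assoc]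
  rw [hset, Set.ncard_coe_finset]
  have h1 : #(Finset.Icc 1 (x / B)) ≤ B * #((Finset.Icc 1 (x / B)).image (fun y => κ y * y)) := by
    apply Finset.card_le_mul_card_image
    intro a ha
    calc #{y ∈ Finset.Icc 1 (x / B) | κ y * y = a} ≤ #(Finset.Icc 1 B) := by
          apply Finset.card_le_card_of_injOn κ
          · intro y hy
            simp only [Finset.coe_Icc, Set.mem_Icc]
            exact ⟨hκ1 y, hκB y⟩
          · intro y hy y' hy' heq
            simp only [Finset.coe_filter, Set.mem_ofPred_eq] at hy hy'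
            have h1 := hy.2
            have h2 := hy'.2
            rw [← heq] at h2
            exact Nat.eq_of_mul_eq_mul_left (hκ1 y) (h1.trans h2.symm)
      _ = B := by simp
  have h2 : #((Finset.Icc 1 (x / B)).image (fun y => κ y * y)) ≤ #({y ∈ Finset.Icc 1 x | P y}) := by
    apply Finset.card_le_card
    intro a ha
    simp only [Finset.mem_image, Finset.mem_Icc, Finset.mem_filter] at ha ⊢
    obtain ⟨y, ⟨hy1, hy2⟩, rfl⟩ := ha
    refine ⟨⟨?_, ?_⟩, hκP y⟩
    · have := hκ1 y
      nlinarith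
    · have h3 : B * (x / B) ≤ x := Nat.mul_div_le x B
      have h4 : κ y * y ≤ B * (x / B) := Nat.mul_le_mul (hκB y) hy2
      omega
  have h3 : x / B ≤ B * #({y ∈ Finset.Icc 1 x | P y}) := by
    calc x / B = #(Finset.Icc 1 (x / B)) := by simp
      _ ≤ _ := h1
      _ ≤ _ := Nat.mul_le_mul_left _ h2
  have h4 : x < B * (x / B) + B := by
    have := Nat.lt_mul_div_succ x hB
    nlinarith
  have h5 : x ≤ 2 * B ^ 2 * #({y ∈ Finset.Icc 1 x | P y}) := by
    have : B * (x / B) ≤ B * (B * #({y ∈ Finset.Icc 1 x | P y})) := Nat.mul_le_mul_left _ h3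
    nlinarith
  have h6 : (x : ℝ) ≤ 2 * B ^ 2 * (#({y ∈ Finset.Icc 1 x | P y}) : ℝ) := by exact_mod_cast h5
  have hBpos : (0 : ℝ) < 2 * (B : ℝ) ^ 2 := by positivity
  rw [div_mul_eq_mul_div, one_mul, div_le_iff₀ hBpos]
  linarith

end Pool.Agent.Helper652_CS
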